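import Pool.Agent.L7h59.TW.Def

/-!
# Twisted monomial representations of skew group rings
-/

set_option autoImplicit false

open Matrix

namespace Pool.Agent.L7h59.TW

noncomputable section

/-- two ring homomorphisms out of a skew group ring agree if they agree on the `a g` -/
theorem hom_ext' {k A B : Type} [Field k] [Group A] [MulSemiringAction A k] [Ring B]
    {f g : SkewMonoidAlgebra k A →+* B}
    (h : ∀ a r, f (SkewMonoidAlgebra.single a r) = g (SkewMonoidAlgebra.single a r)) : f = g := by
  ext b
  induction b using SkewMonoidAlgebra.induction_on' with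
  | single a r => exact h a r
  | add x y hx hy => rw [map_add, map_add, hx, hy]

/-- Data of a twisted monomial representation of `k ⋊ A` over `k ⋊ D` with basis `X`. -/
structure TB (k A D X : Type) [Field k] [Group A] [Group D] [MulSemiringAction A k]
    [MulSemiringAction D k] where
  m : A → X → X
  m_one : ∀ x, m 1 x = x
  m_mul : ∀ a b x, m (a * b) x = m a (m b x)
  c : A → X → D
  t : X → k →+* k
  c_mul : ∀ a b x, c (a * b) x = c a (m b x) * c b x
  ht : ∀ a x r, t (m a x) (a • r) = c a x • t x r

namespace TB

variable {k A D X : Type} [Field k] [Group A] [Group D] [MulSemiringAction A k]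
  [MulSemiringAction D k] (T : TB k A D X)

theorem c_one (x : X) : T.c 1 x = 1 := by
  have h := T.c_mul 1 1 x
  rw [mul_one, T.m_one] at h
  exact left_eq_mul.1 h

variable [Fintype X] [DecidableEq X]

/-- the matrix of an element of the group -/
def mat (a : A) : Matrix X X (SkewMonoidAlgebra k D) :=
  Matrix.of fun y x => if y = T.m a x then SkewMonoidAlgebra.single (T.c a x) 1 else 0

theorem mat_one : T.mat 1 = 1 := by
  ext1 y x
  rw [mat, Matrix.of_apply, T.m_one, T.c_one, Matrix.one_apply]
  rfl

theorem mat_mul (a b : A) : T.mat (a * b) = T.mat a * T.mat b := by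
  ext1 y x
  rw [Matrix.mul_apply, Finset.sum_eq_single (T.m b x)]
  · simp only [mat, Matrix.of_apply, if_true]
    rw [T.m_mul, T.c_mul]
    split_ifs
    · rw [SkewMonoidAlgebra.single_mul_single, smul_one, one_mul]
    · rw [zero_mul]
  · intro z _ hz
    simp only [mat, Matrix.of_apply]
    rw [if_neg hz, mul_zero]
  · intro h; exact absurd (Finset.mem_univ _) h

/-- the diagonal matrix of an element of the field -/
def dia : k →+* Matrix X X (SkewMonoidAlgebra k D) :=
  (Matrix.diagonalRingHom X (SkewMonoidAlgebra k D)).comp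
    (RingHom.pi fun x => (SkewMonoidAlgebra.singleOneRingHom).comp (T.t x))

theorem dia_apply (r : k) :
    T.dia r = Matrix.diagonal fun x => SkewMonoidAlgebra.single 1 (T.t x r) := rfl

theorem dia_mat (r : k) (a : A) (y x : X) : (T.dia r * T.mat a) y x =
    if y = T.m a x then SkewMonoidAlgebra.single (T.c a x) (T.t y r) else 0 := by
  rw [dia_apply, Matrix.diagonal_mul, mat, Matrix.of_apply]
  split_ifs
  · rw [SkewMonoidAlgebra.single_mul_single, one_mul, one_smul, mul_one]
  · rw [mul_zero]

/-- the representation -/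
def hom : SkewMonoidAlgebra k A →+* Matrix X X (SkewMonoidAlgebra k D) :=
  SkewMonoidAlgebra.liftNCRingHom T.dia
    { toFun := T.mat, map_one' := T.mat_one, map_mul' := T.mat_mul } (by
      intro r a
      ext1 y x
      show (T.dia (a • r) * T.mat a) y x = (T.mat a * T.dia r) y x
      rw [dia_mat, dia_apply, Matrix.mul_diagonal, mat, Matrix.of_apply]
      split_ifs with h
      · rw [SkewMonoidAlgebra.single_mul_single, one_mul, mul_one, h, T.ht]
      · rw [zero_mul])

theorem hom_single (a : A) (r : k) (y x : X) : T.hom (SkewMonoidAlgebra.single a r) y x =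
    if y = T.m a x then SkewMonoidAlgebra.single (T.c a x) (T.t y r) else 0 := by
  have h : T.hom (SkewMonoidAlgebra.single a r) = T.dia r * T.mat a :=
    SkewMonoidAlgebra.liftNC_single _ _ _ _
  rw [h, dia_mat]

/-- gauge equivalence -/
theorem gauge (T' : TB k A D X) (n : X → D) (hm : ∀ a x, T'.m a x = T.m a x)
    (hc : ∀ a x, T'.c a x = (n (T.m a x))⁻¹ * T.c a x * n x)
    (ht : ∀ x r, T'.t x r = (n x)⁻¹ • T.t x r) {K : RFun} (B : Blow K)
    (x : K.F (SkewMonoidAlgebra k A)) : B.blow T'.hom x = B.blow T.hom x := by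
  let u : Matrix X X (SkewMonoidAlgebra k D) :=
    Matrix.diagonal fun x => SkewMonoidAlgebra.single (n x)⁻¹ 1
  let v : Matrix X X (SkewMonoidAlgebra k D) :=
    Matrix.diagonal fun x => SkewMonoidAlgebra.single (n x) 1
  apply B.blow_conj T.hom T'.hom u v
  · rw [Matrix.diagonal_mul_diagonal, ← Matrix.diagonal_one]
    congr 1
    funext x
    rw [SkewMonoidAlgebra.single_mul_single, inv_mul_cancel, smul_one, mul_one]
    rfl
  · rw [Matrix.diagonal_mul_diagonal, ← Matrix.diagonal_one]
    congr 1
    funext x
    rw [SkewMonoidAlgebra.single_mul_single, mul_inv_cancel, smul_one, mul_one]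
    rfl
  · intro b
    induction b using SkewMonoidAlgebra.induction_on' with
    | add x y hx hy => rw [map_add, map_add, hx, hy, mul_add, add_mul]
    | single a r =>
      ext1 y x
      rw [Matrix.mul_diagonal, Matrix.diagonal_mul, hom_single, hom_single, hm]
      split_ifs with h
      · rw [SkewMonoidAlgebra.single_mul_single, SkewMonoidAlgebra.single_mul_single, one_mul,
          smul_one, mul_one, hc, ht, h]
      · rw [mul_zero, zero_mul]

/-- restriction to an invariant part of the basis -/
def res {Y : Type} (ρ : X → Y) (hρ : ∀ a x, ρ (T.m a x) = ρ x) (y : Y) :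
    TB k A D {x // ρ x = y} where
  m a x := ⟨T.m a x.1, by rw [hρ]; exact x.2⟩
  m_one x := Subtype.ext (T.m_one x.1)
  m_mul a b x := Subtype.ext (T.m_mul a b x.1)
  c a x := T.c a x.1
  t x := T.t x.1
  c_mul a b x := T.c_mul a b x.1
  ht a x r := T.ht a x.1 r

/-- decomposition of the basis -/
theorem blow_res {Y : Type} [Fintype Y] [DecidableEq Y] (ρ : X → Y)
    (hρ : ∀ a x, ρ (T.m a x) = ρ x) {K : RFun} (B : Blow K)
    (x : K.F (SkewMonoidAlgebra k A)) :
    B.blow T.hom x = ∑ y, B.blow (T.res ρ hρ y).hom x := by
  apply B.blow_sum T.hom ρ fun y => (T.res ρ hρ y).hom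
  · intro b x x' hx
    induction b using SkewMonoidAlgebra.induction_on' with
    | add b b' hb hb' => rw [map_add, Matrix.add_apply, hb, hb', add_zero]
    | single a r =>
      rw [hom_single, if_neg]
      intro h
      exact hx (by rw [h, hρ])
  · intro b y x x'
    induction b using SkewMonoidAlgebra.induction_on' with
    | add b b' hb hb' => rw [map_add, Matrix.add_apply, hb, hb', map_add, Matrix.add_apply]
    | single a r =>
      rw [hom_single, hom_single]
      by_cases h : (x : X) = T.m a x'
      · rw [if_pos h, if_pos (Subtype.ext h)]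
        rfl
      · rw [if_neg h, if_neg (fun h' => h (congrArg Subtype.val h'))]

/-- composition with a homomorphism on the right -/
theorem comp_hom {A' : Type} [Group A'] [MulSemiringAction A' k] (T' : TB k A' D X)
    (f : SkewMonoidAlgebra k A' →+* SkewMonoidAlgebra k A) (ι : A' → A)
    (hf : ∀ a r, f (SkewMonoidAlgebra.single a r) = SkewMonoidAlgebra.single (ι a) r)
    (hm : ∀ a x, T'.m a x = T.m (ι a) x) (hc : ∀ a x, T'.c a x = T.c (ι a) x)
    (ht : ∀ x r, T'.t x r = T.t x r) : T.hom.comp f = T'.hom := by
  apply hom_ext'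
  intro a r
  ext1 y x
  rw [RingHom.comp_apply, hf, hom_single, hom_single, hm, hc, ht]

/-- composition with a homomorphism on the left -/
theorem hom_comp {D' : Type} [Group D'] [MulSemiringAction D' k] (T' : TB k A D' X)
    (f : SkewMonoidAlgebra k D →+* SkewMonoidAlgebra k D')
    (hm : ∀ a x, T'.m a x = T.m a x)
    (hf : ∀ a x r, f (SkewMonoidAlgebra.single (T.c a x) (T.t (T.m a x) r)) =
      SkewMonoidAlgebra.single (T'.c a x) (T'.t (T.m a x) r)) :
    f.mapMatrix.comp T.hom = T'.hom := by
  apply hom_ext'
  intro a r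
  ext1 y x
  show f (T.hom _ y x) = _
  rw [hom_single, hom_single, hm]
  split_ifs with h
  · rw [h, hf]
  · exact map_zero f

end TB

/-- diagonal representations -/
theorem blow_const {K : RFun} (B : Blow K) {S X : Type} [Ring S] [Fintype X] [DecidableEq X]
    (θ : S →+* Matrix X X S) (h : ∀ b, θ b = Matrix.diagonal fun _ => b) (x : K.F S) :
    B.blow θ x = Fintype.card X • K.map (RingHom.id S) x := by
  have key : ∀ (Y : Type) [Fintype Y] [DecidableEq Y] (ρ : X → Y), Function.Bijective ρ →
      B.blow θ x = Fintype.card Y • K.map (RingHom.id S) x := by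
    intro Y _ _ ρ hρ
    have hφ : ∀ y : Y, ∃ φ : S →+* Matrix {x : X // ρ x = y} {x : X // ρ x = y} S,
        ∀ b i j, φ b i j = b := by
      intro y
      refine ⟨(Matrix.diagonalRingHom _ S).comp (RingHom.pi fun _ => RingHom.id S), ?_⟩
      intro b i j
      have : i = j := Subtype.ext (hρ.1 (i.2.trans j.2.symm))
      subst this
      show Matrix.diagonal (fun _ => b) i i = b
      rw [Matrix.diagonal_apply_eq]
    choose φ hφ using hφ
    rw [B.blow_sum θ ρ (fun y => φ y)]
    · have h1 : ∀ y : Y, B.blow (φ y) x = K.map (RingHom.id S) x := by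
        intro y
        obtain ⟨a, ha⟩ := hρ.2 y
        let _ : Unique {x : X // ρ x = y} :=
          ⟨⟨⟨a, ha⟩⟩, fun i => Subtype.ext (hρ.1 (i.2.trans ha.symm))⟩
        exact B.blow_unique (φ y) (RingHom.id S) (fun b i j => hφ y b i j) x
      rw [Finset.sum_congr rfl fun y _ => h1 y, Finset.sum_const, Finset.card_univ]
    · intro b i j hij
      rw [h, Matrix.diagonal_apply_ne _ (fun h' => hij (congrArg ρ h'))]
    · intro b y i j
      rw [hφ, h]
      have : (i : X) = j := hρ.1 (i.2.trans j.2.symm)
      rw [this, Matrix.diagonal_apply_eq]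
  exact key X id Function.bijective_id

end

end Pool.Agent.L7h59.TW
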