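import Mathlib
import Pool.Agent.Y69.WhDef
import Pool.Agent.Y778.NK.K0Def

/-!
# K-theory of skew group rings and the colimit over the finite subgroups

`G` is a group acting by automorphisms on a field `k`, and `k ⋊ H` (`SkewMonoidAlgebra k H`) is the
skew group ring of a subgroup `H`: its elements are the sums of the `a h`, `a ∈ k`, `h ∈ H`, and
`h a = (h • a) h`.
-/

set_option autoImplicit false

open Matrix

namespace Pool.Agent.L7h59.TW

noncomputable section

/-- A functor from rings to abelian groups (here `K₀` and `K₁`). -/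
structure RFun where
  F : (B : Type) → [Ring B] → Type
  [grp : ∀ (B : Type) [Ring B], AddCommGroup (F B)]
  map : ∀ {B C : Type} [Ring B] [Ring C], (B →+* C) → F B →+ F C

attribute [instance] RFun.grp

/-- The functor `K₀`. -/
def k0 : RFun where
  F B _ := Pool.Agent.Y778.NK.K0 B
  grp B _ := inferInstanceAs (AddCommGroup (Pool.Agent.Y778.NK.K0 B))
  map f := Pool.Agent.Y778.NK.K0.map f

/-- The functor `K₁`. -/
def k1 : RFun where
  F B _ := Pool.Agent.Y69.FJ.K1 B
  grp B _ := inferInstanceAs (AddCommGroup (Pool.Agent.Y69.FJ.K1 B))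
  map f := Pool.Agent.Y69.FJ.K1.map f

open Pool.Agent.Y69.FJ (FinSub)

section defs

variable (K : RFun) {k : Type} [Field k] {G : Type} [Group G] [MulSemiringAction G k]

/-- The homomorphism `k ⋊ H → k ⋊ L`, `a h ↦ (g • a) (g h g⁻¹)`, if `g H g⁻¹ ⊆ L`. -/
def conjHom (g : G) {H L : Subgroup G} (h : ∀ x ∈ H, g * x * g⁻¹ ∈ L) :
    SkewMonoidAlgebra k H →+* SkewMonoidAlgebra k L :=
  SkewMonoidAlgebra.liftNCRingHom
    (SkewMonoidAlgebra.singleOneRingHom.comp (MulSemiringAction.toRingHom G k g))
    ((SkewMonoidAlgebra.of k L).comp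
      (((MulAut.conj g).toMonoidHom.comp H.subtype).codRestrict L fun x => h x x.2)) (by
      intro x y
      show SkewMonoidAlgebra.single 1 (g • (y • x)) * SkewMonoidAlgebra.single _ 1 =
        SkewMonoidAlgebra.single _ 1 * SkewMonoidAlgebra.single 1 (g • x)
      rw [SkewMonoidAlgebra.single_mul_single, SkewMonoidAlgebra.single_mul_single, one_mul,
        mul_one, smul_one, mul_one, one_mul]
      congr 1
      show g • ((y : G) • x) = (g * (y : G) * g⁻¹) • (g • x)
      rw [smul_smul, smul_smul, inv_mul_cancel_right])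

/-- The inclusion `k ⋊ H → k ⋊ G`. -/
def incHom (k : Type) [Field k] [MulSemiringAction G k] (H : Subgroup G) :
    SkewMonoidAlgebra k H →+* SkewMonoidAlgebra k G :=
  SkewMonoidAlgebra.mapDomainRingHom (f := H.subtype) fun _ _ => rfl

variable (k G)

/-- The symbols `[H, x]`, `H` a finite subgroup of `G` and `x ∈ F(k ⋊ H)`. -/
def Sym : Type := Σ H : FinSub G, K.F (SkewMonoidAlgebra k H.1)

variable {k G}

/-- The symbol `[H, x]`. -/
def sym (H : FinSub G) (x : K.F (SkewMonoidAlgebra k H.1)) : FreeAbelianGroup (Sym K k G) :=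
  FreeAbelianGroup.of ⟨H, x⟩

variable (k G)

/-- The relations of the colimit: `[H, x + y] = [H, x] + [H, y]`, and `[L, c_g(x)] = [H, x]` for
the conjugations `c_g : k ⋊ H → k ⋊ L`, `g ∈ G`, `g H g⁻¹ ⊆ L`. -/
def Rel : Set (FreeAbelianGroup (Sym K k G)) :=
  {z | (∃ (H : FinSub G) (x y : K.F (SkewMonoidAlgebra k H.1)),
      z = sym K H (x + y) - (sym K H x + sym K H y)) ∨
    ∃ (g : G) (H L : FinSub G) (h : ∀ x ∈ H.1, g * x * g⁻¹ ∈ L.1)
      (x : K.F (SkewMonoidAlgebra k H.1)), z = sym K L (K.map (conjHom g h) x) - sym K H x}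

/-- `colim F(k ⋊ H)` over the finite subgroups `H` of `G`. -/
def Colim : Type := FreeAbelianGroup (Sym K k G) ⧸ AddSubgroup.closure (Rel K k G)

instance : AddCommGroup (Colim K k G) :=
  QuotientAddGroup.Quotient.addCommGroup (AddSubgroup.closure (Rel K k G))

variable {k G}

/-- The class of `[H, x]` in the colimit. -/
def cl (H : FinSub G) (x : K.F (SkewMonoidAlgebra k H.1)) : Colim K k G :=
  QuotientAddGroup.mk (sym K H x)

variable (k G)

/-- The homomorphism with `[H, x] ↦ F(i)(x)`, `i : k ⋊ H → k ⋊ G` the inclusion. -/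
def asmPre : FreeAbelianGroup (Sym K k G) →+ K.F (SkewMonoidAlgebra k G) :=
  FreeAbelianGroup.lift fun s => K.map (incHom k s.1.1) s.2

/-- `colim F(k ⋊ H) → F(k ⋊ G)` is injective up to torsion. -/
def RatInj : Prop :=
  ∀ (z : FreeAbelianGroup (Sym K k G)) (n : ℕ), 0 < n → n • asmPre K k G z = 0 →
    ∃ l : ℕ, 0 < l ∧ l • (QuotientAddGroup.mk z : Colim K k G) = 0

end defs

/-- A functor `F` from rings to abelian groups which is compatible with matrices: for a ring
homomorphism `θ : B → M_X(C)`, `X` a finite set, there is a map `blow θ : F B → F C`, which depends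
only on `θ` up to conjugation with invertible matrices, is additive for block sums and agrees with
`map` if `X` has one element. -/
structure Blow (K : RFun) where
  blow : ∀ {B C X : Type} [Ring B] [Ring C] [Fintype X] [DecidableEq X],
    (B →+* Matrix X X C) → K.F B →+ K.F C
  map_map : ∀ {B C D : Type} [Ring B] [Ring C] [Ring D] (f : B →+* C) (g : C →+* D) (x : K.F B),
    K.map g (K.map f x) = K.map (g.comp f) x
  blow_map : ∀ {A B C X : Type} [Ring A] [Ring B] [Ring C] [Fintype X] [DecidableEq X]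
    (f : A →+* B) (θ : B →+* Matrix X X C) (x : K.F A), blow θ (K.map f x) = blow (θ.comp f) x
  map_blow : ∀ {B C D X : Type} [Ring B] [Ring C] [Ring D] [Fintype X] [DecidableEq X]
    (θ : B →+* Matrix X X C) (g : C →+* D) (x : K.F B),
    K.map g (blow θ x) = blow (g.mapMatrix.comp θ) x
  blow_conj : ∀ {B C X : Type} [Ring B] [Ring C] [Fintype X] [DecidableEq X]
    (θ θ' : B →+* Matrix X X C) (u v : Matrix X X C), u * v = 1 → v * u = 1 →
    (∀ b, θ' b = u * θ b * v) → ∀ x : K.F B, blow θ' x = blow θ x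
  blow_sum : ∀ {B C X Y : Type} [Ring B] [Ring C] [Fintype X] [DecidableEq X] [Fintype Y]
    [DecidableEq Y] (θ : B →+* Matrix X X C) (ρ : X → Y)
    (θs : ∀ y, B →+* Matrix {x // ρ x = y} {x // ρ x = y} C),
    (∀ b x x', ρ x ≠ ρ x' → θ b x x' = 0) →
    (∀ b y (x x' : {x // ρ x = y}), θs y b x x' = θ b x x') →
    ∀ x : K.F B, blow θ x = ∑ y, blow (θs y) x
  blow_unique : ∀ {B C X : Type} [Ring B] [Ring C] [Fintype X] [DecidableEq X] [Unique X]
    (θ : B →+* Matrix X X C) (f : B →+* C), (∀ b x y, θ b x y = f b) →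
    ∀ x : K.F B, blow θ x = K.map f x

/-- `F` commutes with directed unions of rings. -/
def Cont (K : RFun) : Prop :=
  (∀ (B : Type) [Ring B] (x : K.F B), ∃ s : Finset B, ∀ (B' : Type) [Ring B'] (f : B' →+* B),
    Function.Injective f → (∀ b ∈ s, b ∈ Set.range f) → ∃ x' : K.F B', K.map f x' = x) ∧
  ∀ (B₀ B : Type) [Ring B₀] [Ring B] (f₀ : B₀ →+* B) (x : K.F B₀), K.map f₀ x = 0 →
    ∃ s : Finset B, ∀ (B' : Type) [Ring B'] (g : B₀ →+* B') (f : B' →+* B),
      Function.Injective f → f.comp g = f₀ → (∀ b ∈ s, b ∈ Set.range f) → K.map g x = 0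

/-! ### The parts -/

/-- [K0F] `K₀` has maps `blow` (`blowK` of `Pool.Agent.Y778.SL.K0Ext`; `cl0_conj`, `cl0_blocks`, `cl0_swap` of
`Pool.Agent.Y778.NK.K0Api`) and commutes with directed unions (an element of the closure of `K0Rel B` uses
finitely many matrices; `f` injective makes the map of the free abelian groups injective). -/
def S_K0F : Prop := Nonempty (Blow k0) ∧ Cont k0

/-- [K1F] The same for `K₁`. -/
def S_K1F : Prop := Nonempty (Blow k1) ∧ Cont k1

/-- [TR0] Trivial actions, `K₀`: from `Pool.Agent.Results.MP_6374fb_al.SemilocalK0.result` (with `R = k`), by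
`SkewMonoidAlgebra k N ≃ MonoidAlgebra k N`. -/
def S_TR0 : Prop := ∀ (k N : Type) [Field k] [Group N] [MulSemiringAction N k],
  (∀ (n : N) (a : k), n • a = a) → RatInj k0 k N

/-- [TR1] Trivial actions, `K₁`: from `Pool.Agent.Results.MP_6374fb_al.ColimFieldInjective.result` and
`Pool.Agent.Results.MP_490288_al.ColimPositiveCharacteristic.result`. -/
def S_TR1 : Prop := ∀ (k N : Type) [Field k] [Group N] [MulSemiringAction N k],
  (∀ (n : N) (a : k), n • a = a) → RatInj k1 k N

/-- [GAL] For a finite group `Q` acting faithfully on `k` the matrix `(q • e_j)`, `e` a basis of `k` over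
the fixed field, is invertible (Artin, Dedekind). -/
def S_GAL : Prop := ∀ (k G : Type) [Field k] [Group G] [MulSemiringAction G k] (N : Subgroup G)
  [N.Normal] [Fintype (G ⧸ N)] [DecidableEq (G ⧸ N)],
  (∀ g : G, g ∈ N ↔ ∀ a : k, g • a = a) →
  ∃ u v : Matrix (G ⧸ N) (G ⧸ N) k, u * v = 1 ∧ v * u = 1 ∧
    ∀ (g : G) (q j : G ⧸ N), u (g • q) j = g • u q j

/-- [FIN] The case of an action through a finite quotient. -/
def S_FIN : Prop := ∀ K : RFun, Nonempty (Blow K) → ∀ (k G : Type) [Field k] [Group G]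
  [MulSemiringAction G k] (N : Subgroup G) [N.Normal] [N.FiniteIndex],
  (∀ g : G, g ∈ N ↔ ∀ a : k, g • a = a) → RatInj K k N → RatInj K k G

/-- [DIR] From finite quotients to finite orbits. Let `z` be given with `n • asmPre z = 0`. Finitely many
elements of `k` are needed to write down `z` (by `Cont`); the subfield `k'` generated by their orbits is
`G`-stable, and `G` acts on `k'` through a finite quotient (`G` permutes the finite union of the
orbits). `z` comes from some `z'` for `k'`, and by the second part of `Cont` one can enlarge `k'` such that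
`n • asmPre z' = 0`. -/
def S_DIR : Prop := ∀ K : RFun, Nonempty (Blow K) → Cont K →
  (∀ (k G : Type) [Field k] [Group G] [MulSemiringAction G k] (N : Subgroup G) [N.Normal]
    [N.FiniteIndex], (∀ g : G, g ∈ N ↔ ∀ a : k, g • a = a) → RatInj K k G) →
  ∀ (k G : Type) [Field k] [Group G] [MulSemiringAction G k],
    (∀ a : k, (MulAction.orbit G a).Finite) → RatInj K k G

end

end Pool.Agent.L7h59.TW
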