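import Pool.Agent.L7h59.TW.Gen
import Pool.Agent.L7h70.TW.Gal
import Pool.Agent.L7h70.TW.Dir
import Pool.Agent.L7h75.TW.K0f
import Pool.Agent.L7h75.TW.Tr0
import Pool.Agent.L7h76.TW.K1f
import Pool.Agent.L7h76.TW.Tr1

/-!
# The assembly map and the final theorem
-/

set_option autoImplicit false

open Matrix

namespace Pool.Agent.L7h59.TW

open Pool.Agent.Y69.FJ (FinSub)

noncomputable section

section asm

variable {K : RFun} (B : Blow K)

/-- the ring of `1 × 1` matrices -/
def one₁ {S T : Type} [Ring S] [Ring T] (f : S →+* T) : S →+* Matrix Unit Unit T :=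
  (Matrix.diagonalRingHom Unit T).comp (RingHom.pi fun _ => f)

theorem one₁_apply {S T : Type} [Ring S] [Ring T] (f : S →+* T) (b : S) (x y : Unit) :
    one₁ f b x y = f b := by
  show Matrix.diagonal (fun _ => f b) x y = f b
  rw [Subsingleton.elim y x, Matrix.diagonal_apply_eq]

include B in
theorem map_conj {S : Type} [Ring S] (φ : S →+* S) (u v : S) (h1 : u * v = 1) (h2 : v * u = 1)
    (hφ : ∀ b, φ b = u * b * v) (x : K.F S) : K.map φ x = K.map (RingHom.id S) x := by
  rw [← B.blow_unique (one₁ φ) φ (one₁_apply φ) x,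
    ← B.blow_unique (one₁ (RingHom.id S)) (RingHom.id S) (one₁_apply _) x]
  apply B.blow_conj _ _ (Matrix.diagonal fun _ => u) (Matrix.diagonal fun _ => v)
  · rw [Matrix.diagonal_mul_diagonal, h1, Matrix.diagonal_one]
  · rw [Matrix.diagonal_mul_diagonal, h2, Matrix.diagonal_one]
  · intro b
    ext1 x y
    rw [Matrix.mul_diagonal, Matrix.diagonal_mul, one₁_apply, one₁_apply, hφ]
    rfl

variable {k G : Type} [Field k] [Group G] [MulSemiringAction G k]

include B in
theorem map_inc_conj (g : G) {H L : Subgroup G} (h : ∀ x ∈ H, g * x * g⁻¹ ∈ L)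
    (x : K.F (SkewMonoidAlgebra k H)) :
    K.map (incHom k L) (K.map (conjHom g h) x) = K.map (incHom k H) x := by
  let u : SkewMonoidAlgebra k G := SkewMonoidAlgebra.single g 1
  let v : SkewMonoidAlgebra k G := SkewMonoidAlgebra.single g⁻¹ 1
  have h1 : u * v = 1 := by
    show SkewMonoidAlgebra.single g 1 * SkewMonoidAlgebra.single g⁻¹ 1 = _
    rw [SkewMonoidAlgebra.single_mul_single, mul_inv_cancel, smul_one, mul_one]
    rfl
  have h2 : v * u = 1 := by
    show SkewMonoidAlgebra.single g⁻¹ 1 * SkewMonoidAlgebra.single g 1 = _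
    rw [SkewMonoidAlgebra.single_mul_single, inv_mul_cancel, smul_one, mul_one]
    rfl
  let φ : SkewMonoidAlgebra k G →+* SkewMonoidAlgebra k G :=
    { toFun := fun b => u * b * v
      map_one' := by rw [mul_one, h1]
      map_mul' := fun a b => by
        rw [show u * (a * b) * v = u * a * (1 : SkewMonoidAlgebra k G) * b * v by
          rw [mul_one, mul_assoc u a b], ← h2]
        simp only [mul_assoc]
      map_zero' := by rw [mul_zero, zero_mul]
      map_add' := fun a b => by rw [mul_add, add_mul] }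
  have e : (incHom k L).comp (conjHom g h) = φ.comp (incHom k H) := by
    apply hom_ext'
    intro a r
    rw [RingHom.comp_apply, RingHom.comp_apply, conjHom_single, incHom_single, incHom_single]
    show _ = SkewMonoidAlgebra.single g 1 * SkewMonoidAlgebra.single (a : G) r *
      SkewMonoidAlgebra.single g⁻¹ 1
    rw [SkewMonoidAlgebra.single_mul_single, SkewMonoidAlgebra.single_mul_single, one_mul,
      smul_one, mul_one]
  rw [B.map_map, e, ← B.map_map, map_conj B φ u v h1 h2 (fun _ => rfl), B.map_map]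
  congr 1

/-- The assembly map. -/
def asm : Colim K k G →+ K.F (SkewMonoidAlgebra k G) :=
  QuotientAddGroup.lift (AddSubgroup.closure (Rel K k G)) (asmPre K k G) (by
    rw [AddSubgroup.closure_le]
    rintro z (⟨H, x, y, rfl⟩ | ⟨g, H, L, h, x, rfl⟩)
    · show asmPre K k G _ = 0
      rw [map_sub, map_add, asmPre_sym, asmPre_sym, asmPre_sym, map_add, sub_self]
    · show asmPre K k G _ = 0
      rw [map_sub, asmPre_sym, asmPre_sym, sub_eq_zero]
      exact map_inc_conj B g h x)

theorem asm_mk (z : FreeAbelianGroup (Sym K k G)) :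
    asm B (QuotientAddGroup.mk z) = asmPre K k G z := rfl

end asm

/-- `colim F(k ⋊ H) → F(k ⋊ G)`, `H` ranging over the finite subgroups of `G`, is injective up to
torsion: there is a homomorphism `A` with `A [H, x] = F(i)(x)`, `i : k ⋊ H → k ⋊ G` the inclusion,
and if `A z` has finite order then so has `z`. -/
def RationallyInjective (K : RFun) (k G : Type) [Field k] [Group G] [MulSemiringAction G k] :
    Prop :=
  ∃ A : Colim K k G →+ K.F (SkewMonoidAlgebra k G),
    (∀ (H : FinSub G) (x : K.F (SkewMonoidAlgebra k H.1)),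
      A (cl K H x) = K.map (incHom k H.1) x) ∧
    ∀ z, (∃ n : ℕ, 0 < n ∧ n • A z = 0) → ∃ l : ℕ, 0 < l ∧ l • z = 0

theorem rationallyInjective_iff {K : RFun} (B : Blow K) (k G : Type) [Field k] [Group G]
    [MulSemiringAction G k] : RationallyInjective K k G ↔ RatInj K k G := by
  constructor
  · rintro ⟨A, h1, h2⟩ z n hn h
    have h3 : A.comp (mkC K k G) = asmPre K k G := by
      apply FreeAbelianGroup.lift.symm.injective
      funext s
      exact (h1 s.1 s.2).trans (asmPre_sym s.1 s.2).symm
    apply h2 (mkC K k G z)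
    refine ⟨n, hn, ?_⟩
    have h4 : A (mkC K k G z) = asmPre K k G z := DFunLike.congr_fun h3 z
    rw [h4, h]
  · intro h
    refine ⟨asm B, fun H x => (asm_mk B _).trans (asmPre_sym H x), ?_⟩
    rintro z ⟨n, hn, hz⟩
    obtain ⟨w, rfl⟩ := QuotientAddGroup.mk'_surjective _ z
    exact h w n hn hz

/-- The general principle. -/
theorem principle {K : RFun} (hB : Nonempty (Blow K)) (hC : Cont K)
    (hT : ∀ (k N : Type) [Field k] [Group N] [MulSemiringAction N k],
      (∀ (n : N) (a : k), n • a = a) → RationallyInjective K k N)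
    (k G : Type) [Field k] [Group G] [MulSemiringAction G k]
    (h : ∀ a : k, (MulAction.orbit G a).Finite) : RationallyInjective K k G := by
  obtain ⟨B⟩ := hB
  rw [rationallyInjective_iff B]
  refine Pool.Agent.L7h70.TW.s_DIR K ⟨B⟩ hC ?_ k G h
  intro k G _ _ _ N _ _ hN
  refine fin_of Pool.Agent.L7h70.TW.s_GAL K ⟨B⟩ k G N hN ?_
  rw [← rationallyInjective_iff B]
  exact hT k N fun n a => (hN n).1 n.2 a

end

end Pool.Agent.L7h59.TW
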