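import Pool.Agent.L7h59.TW.Tb

/-!
# Actions through a finite quotient
-/

set_option autoImplicit false

open Matrix

namespace Pool.Agent.L7h59.TW

open Pool.Agent.Y69.FJ (FinSub)

noncomputable section

section api

variable {K : RFun} {k G : Type} [Field k] [Group G] [MulSemiringAction G k]

theorem conjHom_single (g : G) {H L : Subgroup G} (h : ∀ x ∈ H, g * x * g⁻¹ ∈ L) (a : H) (r : k) :
    conjHom g h (SkewMonoidAlgebra.single a r) =
      SkewMonoidAlgebra.single (⟨g * a * g⁻¹, h a a.2⟩ : L) (g • r) := by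
  have h1 : conjHom g h (SkewMonoidAlgebra.single a r) =
      SkewMonoidAlgebra.single 1 (g • r) *
        SkewMonoidAlgebra.single (⟨g * a * g⁻¹, h a a.2⟩ : L) 1 :=
    SkewMonoidAlgebra.liftNC_single _ _ _ _
  rw [h1, SkewMonoidAlgebra.single_mul_single, one_mul, one_smul, mul_one]

theorem incHom_single (H : Subgroup G) (a : H) (r : k) :
    incHom k H (SkewMonoidAlgebra.single a r) = SkewMonoidAlgebra.single (a : G) r :=
  SkewMonoidAlgebra.mapDomain_single

theorem cl_add (H : FinSub G) (x y : K.F (SkewMonoidAlgebra k H.1)) :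
    cl K H (x + y) = cl K H x + cl K H y := by
  have h : (QuotientAddGroup.mk (sym K H (x + y) - (sym K H x + sym K H y)) : Colim K k G) = 0 :=
    (QuotientAddGroup.eq_zero_iff _).2 (AddSubgroup.subset_closure (Or.inl ⟨H, x, y, rfl⟩))
  exact sub_eq_zero.1 h

/-- `[H, -]` as a homomorphism -/
def clH (K : RFun) (H : FinSub G) : K.F (SkewMonoidAlgebra k H.1) →+ Colim K k G where
  toFun := cl K H
  map_zero' := by
    have h := cl_add (K := K) (k := k) H 0 0
    rw [add_zero] at h
    exact left_eq_add.1 h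
  map_add' := cl_add H

theorem cl_conj (g : G) (H L : FinSub G) (h : ∀ x ∈ H.1, g * x * g⁻¹ ∈ L.1)
    (x : K.F (SkewMonoidAlgebra k H.1)) : cl K L (K.map (conjHom g h) x) = cl K H x := by
  have h : (QuotientAddGroup.mk (sym K L (K.map (conjHom g h) x) - sym K H x) : Colim K k G) = 0 :=
    (QuotientAddGroup.eq_zero_iff _).2 (AddSubgroup.subset_closure (Or.inr ⟨g, H, L, h, x, rfl⟩))
  exact sub_eq_zero.1 h

theorem cl_id (H : FinSub G) (x : K.F (SkewMonoidAlgebra k H.1)) :
    cl K H (K.map (RingHom.id _) x) = cl K H x := by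
  have h : ∀ x ∈ H.1, (1 : G) * x * 1⁻¹ ∈ H.1 := fun x hx => by
    rw [one_mul, inv_one, mul_one]; exact hx
  rw [← cl_conj (K := K) (1 : G) H H h x]
  congr 2
  apply congrArg
  symm
  apply hom_ext'
  intro a r
  rw [conjHom_single, RingHom.id_apply, one_smul]
  congr 1
  exact Subtype.ext (show (1 : G) * (a : G) * 1⁻¹ = a by rw [one_mul, inv_one, mul_one])

theorem asmPre_sym (H : FinSub G) (x : K.F (SkewMonoidAlgebra k H.1)) :
    asmPre K k G (sym K H x) = K.map (incHom k H.1) x :=
  FreeAbelianGroup.lift_apply_of _ _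

end api

section up

variable {K : RFun} (B : Blow K) {k G : Type} [Field k] [Group G] [MulSemiringAction G k]
  (N : Subgroup G)

/-- a finite subgroup of `N` as a subgroup of `G` -/
def up (E : FinSub N) : FinSub G :=
  ⟨E.1.map N.subtype, by
    have := E.2
    exact Finite.of_surjective _ (N.subtype.subgroupMap_surjective E.1)⟩

/-- `k ⋊ E → k ⋊ E` -/
def upHom (k : Type) [Field k] [MulSemiringAction G k] (E : FinSub N) :
    SkewMonoidAlgebra k E.1 →+* SkewMonoidAlgebra k (up N E).1 :=
  SkewMonoidAlgebra.mapDomainRingHom (f := N.subtype.subgroupMap E.1) fun _ _ => rfl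

theorem upHom_single (E : FinSub N) (a : E.1) (r : k) :
    upHom N k E (SkewMonoidAlgebra.single a r) =
      SkewMonoidAlgebra.single (N.subtype.subgroupMap E.1 a) r :=
  SkewMonoidAlgebra.mapDomain_single

/-- the value on generators -/
def upPre : FreeAbelianGroup (Sym K k N) →+ Colim K k G :=
  FreeAbelianGroup.lift fun s => cl K (up N s.1) (K.map (upHom N k s.1) s.2)

theorem upPre_sym (E : FinSub N) (x : K.F (SkewMonoidAlgebra k E.1)) :
    upPre (K := K) (k := k) N (sym K E x) = cl K (up N E) (K.map (upHom N k E) x) :=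
  FreeAbelianGroup.lift_apply_of _ _

include B in
theorem upPre_rel : AddSubgroup.closure (Rel K k N) ≤ (upPre (K := K) (k := k) N).ker := by
  rw [AddSubgroup.closure_le]
  rintro z (⟨H, x, y, rfl⟩ | ⟨g, H, L, h, x, rfl⟩)
  · show upPre N _ = 0
    rw [map_sub, map_add, upPre_sym, upPre_sym, upPre_sym, map_add, cl_add, sub_self]
  · show upPre N _ = 0
    rw [map_sub, upPre_sym, upPre_sym, sub_eq_zero]
    have h' : ∀ x ∈ (up N H).1, (g : G) * x * (g : G)⁻¹ ∈ (up N L).1 := by
      rintro x ⟨y, hy, rfl⟩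
      exact ⟨g * y * g⁻¹, h y hy, rfl⟩
    rw [← cl_conj (K := K) (g : G) (up N H) (up N L) h', B.map_map, B.map_map]
    congr 2
    apply congrArg
    apply hom_ext'
    intro a r
    rw [RingHom.comp_apply, RingHom.comp_apply, conjHom_single, upHom_single, upHom_single]
    exact (conjHom_single (g : G) h' (N.subtype.subgroupMap H.1 a) r).symm

/-- `colim_N → colim_G` -/
def upC : Colim K k N →+ Colim K k G :=
  QuotientAddGroup.lift _ (upPre (K := K) (k := k) N) (upPre_rel B N)

theorem upC_mk (w : FreeAbelianGroup (Sym K k N)) :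
    upC B N (QuotientAddGroup.mk w) = upPre N w := rfl

end up

section sec

variable {k G : Type} [Field k] [Group G] [MulSemiringAction G k] (N : Subgroup G)

/-- the monomial representation over `k ⋊ N` given by a section -/
def secT {A : Type} [Group A] [MulSemiringAction A k] (ι : A →* G) (hι : ∀ (a : A) (r : k), a • r = ι a • r)
    (σ : G ⧸ N → G) (hσ : ∀ q, (σ q : G ⧸ N) = q) : TB k A N (G ⧸ N) where
  m a q := ι a • q
  m_one q := by rw [map_one, one_smul]
  m_mul a b q := by rw [map_mul, mul_smul]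
  c a q := ⟨(σ (ι a • q))⁻¹ * ι a * σ q, by
    rw [mul_assoc, ← QuotientGroup.eq, hσ]
    show ι a • q = ι a • (σ q : G ⧸ N)
    rw [hσ]⟩
  t q := MulSemiringAction.toRingHom G k (σ q)⁻¹
  c_mul a b q := Subtype.ext (by
    show (σ (ι (a * b) • q))⁻¹ * ι (a * b) * σ q =
      ((σ (ι a • ι b • q))⁻¹ * ι a * σ (ι b • q)) * ((σ (ι b • q))⁻¹ * ι b * σ q)
    rw [map_mul, mul_smul]
    group)
  ht a q r := by
    show (σ (ι a • q))⁻¹ • (a • r) = ((σ (ι a • q))⁻¹ * ι a * σ q) • (σ q)⁻¹ • r
    rw [hι, smul_smul, smul_smul, mul_inv_cancel_right]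

/-- the monomial representation of `k ⋊ H` over `k ⋊ H` on `X`, twisted by `n : X → H` -/
def nT (H : Subgroup G) (n : G ⧸ N → H) : TB k H H (G ⧸ N) where
  m a q := a • q
  m_one q := one_smul _ _
  m_mul a b q := mul_smul _ _ _
  c a q := (n (a • q))⁻¹ * a * n q
  t q := MulSemiringAction.toRingHom H k (n q)⁻¹
  c_mul a b q := by rw [mul_smul]; group
  ht a q r := by
    show (n (a • q))⁻¹ • a • r = ((n (a • q))⁻¹ * a * n q) • (n q)⁻¹ • r
    rw [smul_smul, smul_smul, mul_inv_cancel_right]

variable {N} in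
theorem blow_nT {K : RFun} (B : Blow K) [Fintype (G ⧸ N)] [DecidableEq (G ⧸ N)]
    (u v : Matrix (G ⧸ N) (G ⧸ N) k) (h1 : u * v = 1) (h2 : v * u = 1)
    (h3 : ∀ (g : G) (q j : G ⧸ N), u (g • q) j = g • u q j) (H : Subgroup G) (n : G ⧸ N → H)
    (x : K.F (SkewMonoidAlgebra k H)) :
    B.blow (nT (k := k) N H n).hom x = Fintype.card (G ⧸ N) • K.map (RingHom.id _) x := by
  have e1 : B.blow (nT (k := k) N H n).hom x = B.blow (nT (k := k) N H fun _ => 1).hom x := by
    apply TB.gauge _ _ n
    · intro a q; rfl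
    · intro a q
      show (n (a • q))⁻¹ * a * n q = (n (a • q))⁻¹ * (1⁻¹ * a * 1) * n q
      rw [inv_one, one_mul, mul_one]
    · intro q r
      show (n q)⁻¹ • r = (n q)⁻¹ • ((1 : H)⁻¹ • r)
      rw [inv_one, one_smul]
  rw [e1]
  let f : k →+* SkewMonoidAlgebra k H := SkewMonoidAlgebra.singleOneRingHom
  let D : SkewMonoidAlgebra k H →+* Matrix (G ⧸ N) (G ⧸ N) (SkewMonoidAlgebra k H) :=
    (Matrix.diagonalRingHom _ _).comp (RingHom.pi fun _ => RingHom.id _)
  rw [← blow_const B D (fun b => rfl) x]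
  apply B.blow_conj D _ (f.mapMatrix u) (f.mapMatrix v)
  · rw [← map_mul, h1, map_one]
  · rw [← map_mul, h2, map_one]
  · have key : ∀ b, (nT (k := k) N H fun _ => 1).hom b * f.mapMatrix u = f.mapMatrix u * D b := by
      intro b
      induction b using SkewMonoidAlgebra.induction_on' with
      | add x y hx hy => rw [map_add, map_add, add_mul, mul_add, hx, hy]
      | single a r =>
        ext1 y j
        have hD : D (SkewMonoidAlgebra.single a r) =
          Matrix.diagonal fun _ => SkewMonoidAlgebra.single a r := rfl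
        rw [hD, Matrix.mul_diagonal, Matrix.mul_apply, Finset.sum_eq_single (a⁻¹ • y)]
        · rw [TB.hom_single, if_pos (by show y = a • a⁻¹ • y; rw [smul_inv_smul])]
          show SkewMonoidAlgebra.single ((1 : H)⁻¹ * a * 1) ((1 : H)⁻¹ • r) *
            SkewMonoidAlgebra.single 1 (u (a⁻¹ • y) j) =
            SkewMonoidAlgebra.single 1 (u y j) * SkewMonoidAlgebra.single a r
          rw [inv_one, one_mul, mul_one, one_smul, SkewMonoidAlgebra.single_mul_single,
            SkewMonoidAlgebra.single_mul_single, mul_one, one_mul, one_smul]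
          congr 1
          have h4 : u y j = a • u (a⁻¹ • y) j := by
            have h5 := h3 (a : G) (a⁻¹ • y) j
            rw [show (a : G) • (a⁻¹ • y) = y from smul_inv_smul a y] at h5
            exact h5
          rw [h4, mul_comm]
        · intro z _ hz
          rw [TB.hom_single, if_neg, zero_mul]
          intro h
          apply hz
          show z = a⁻¹ • y
          rw [h]
          exact (inv_smul_smul a z).symm
        · intro h; exact absurd (Finset.mem_univ _) h
    intro b
    rw [← key, mul_assoc, ← map_mul, h1, map_one, mul_one]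

end sec

end

end Pool.Agent.L7h59.TW
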