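import Pool.Agent.L7h59.TW.Fin

/-!
# The transfer of a symbol, and the part FIN
-/

set_option autoImplicit false

open Matrix

namespace Pool.Agent.L7h59.TW

open Pool.Agent.Y69.FJ (FinSub)

noncomputable section

section gen

variable {K : RFun} (B : Blow K) {k G : Type} [Field k] [Group G] [MulSemiringAction G k]
  (N : Subgroup G) [Fintype (G ⧸ N)] [DecidableEq (G ⧸ N)]

/-- representatives of the orbits -/
theorem exists_rep (H : Subgroup G) : ∃ (ρ : G ⧸ N → G ⧸ N) (n : G ⧸ N → H),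
    (∀ q, n q • ρ q = q) ∧ ∀ (a : H) q, ρ (a • q) = ρ q := by
  have h1 : ∀ q : G ⧸ N, ∃ g : H,
      g • q = (Quotient.mk (MulAction.orbitRel H (G ⧸ N)) q).out := by
    intro q
    have h := Quotient.mk_out (s := MulAction.orbitRel H (G ⧸ N)) q
    exact MulAction.orbitRel_apply.1 h
  choose m hm using h1
  refine ⟨fun q => (Quotient.mk (MulAction.orbitRel H (G ⧸ N)) q).out, fun q => (m q)⁻¹, ?_, ?_⟩
  · intro q
    show (m q)⁻¹ • (Quotient.mk (MulAction.orbitRel H (G ⧸ N)) q).out = q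
    rw [← hm q, inv_smul_smul]
  · intro a q
    show (Quotient.mk (MulAction.orbitRel H (G ⧸ N)) (a • q)).out = _
    congr 1
    exact Quotient.sound (MulAction.orbitRel_apply.2 ⟨a, rfl⟩)

/-- the finite subgroup `N ∩ s⁻¹ H s` -/
def Es (H : FinSub G) (s : G) : FinSub N :=
  ⟨Subgroup.comap ((MulAut.conj s).toMonoidHom.comp N.subtype) H.1, by
    have := H.2
    refine Finite.of_injective (fun x : ↥(Subgroup.comap ((MulAut.conj s).toMonoidHom.comp
      N.subtype) H.1) => (⟨_, x.2⟩ : H.1)) ?_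
    intro x y h
    have h1 : s * (x : N) * s⁻¹ = s * (y : N) * s⁻¹ := congrArg Subtype.val h
    exact Subtype.ext (Subtype.ext (mul_left_cancel (mul_right_cancel h1)))⟩

theorem mem_Es {H : FinSub G} {s : G} {x : N} : x ∈ (Es N H s).1 ↔ s * x * s⁻¹ ∈ H.1 := Iff.rfl

variable {N}

/-- the local piece of the transfer -/
def yT (H : FinSub G) (s : G ⧸ N → G) (hs : ∀ q, (s q : G ⧸ N) = q) (ρ : G ⧸ N → G ⧸ N)
    (n : G ⧸ N → H.1) (hn : ∀ q, n q • ρ q = q) (hρ : ∀ (a : H.1) q, ρ (a • q) = ρ q)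
    (y : G ⧸ N) : TB k H.1 (Es N H (s y)).1 {q // ρ q = y} where
  m a q := ⟨a • q.1, by rw [hρ]; exact q.2⟩
  m_one q := Subtype.ext (one_smul _ _)
  m_mul a b q := Subtype.ext (mul_smul _ _ _)
  c a q := ⟨⟨(s y)⁻¹ * (((n (a • q.1))⁻¹ * a * n q.1 : H.1) : G) * s y, by
    rw [mul_assoc, ← QuotientGroup.eq]
    show (s y : G ⧸ N) = ((n (a • q.1))⁻¹ * a * n q.1 : H.1) • (s y : G ⧸ N)
    rw [hs, mul_smul, mul_smul]
    have h1 : n q.1 • y = q.1 := by
      have := hn q.1
      rw [q.2] at this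
      exact this
    rw [h1]
    have h2 := hn (a • q.1)
    rw [hρ, q.2] at h2
    rw [eq_inv_smul_iff, h2]⟩, by
    rw [mem_Es]
    show s y * ((s y)⁻¹ * (((n (a • q.1))⁻¹ * a * n q.1 : H.1) : G) * s y) * (s y)⁻¹ ∈ H.1
    rw [← mul_assoc, ← mul_assoc, mul_inv_cancel, one_mul, mul_inv_cancel_right]
    exact Subtype.property _⟩
  t q := MulSemiringAction.toRingHom G k ((n q.1 : G) * s y)⁻¹
  c_mul a b q := by
    apply Subtype.ext
    apply Subtype.ext
    show (s y)⁻¹ * (((n ((a * b) • q.1))⁻¹ * (a * b) * n q.1 : H.1) : G) * s y =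
      ((s y)⁻¹ * (((n (a • b • q.1))⁻¹ * a * n (b • q.1) : H.1) : G) * s y) *
      ((s y)⁻¹ * (((n (b • q.1))⁻¹ * b * n q.1 : H.1) : G) * s y)
    rw [mul_smul]
    push_cast
    group
  ht a q r := by
    show ((n (a • q.1) : G) * s y)⁻¹ • ((a : G) • r) =
      ((s y)⁻¹ * (((n (a • q.1))⁻¹ * a * n q.1 : H.1) : G) * s y) • ((n q.1 : G) * s y)⁻¹ • r
    rw [smul_smul, smul_smul]
    congr 1
    push_cast
    group

theorem gen (u v : Matrix (G ⧸ N) (G ⧸ N) k) (h1 : u * v = 1) (h2 : v * u = 1)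
    (h3 : ∀ (g : G) (q j : G ⧸ N), u (g • q) j = g • u q j) (s : G ⧸ N → G)
    (hs : ∀ q, (s q : G ⧸ N) = q) (H : FinSub G) (x : K.F (SkewMonoidAlgebra k H.1)) :
    ∃ w : FreeAbelianGroup (Sym K k N),
      upPre N w = Fintype.card (G ⧸ N) • cl K H x ∧
      asmPre K k N w = B.blow (secT (k := k) N (MonoidHom.id G) (fun _ _ => rfl) s hs).hom
        (K.map (incHom k H.1) x) := by
  obtain ⟨ρ, n, hn, hρ⟩ := exists_rep N H.1
  let T : ∀ y, TB k H.1 (Es N H (s y)).1 {q // ρ q = y} := yT H s hs ρ n hn hρ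
  refine ⟨∑ y, sym K (Es N H (s y)) (B.blow (T y).hom x), ?_, ?_⟩
  · have e1 : ∀ y, upPre N (sym K (Es N H (s y)) (B.blow (T y).hom x)) =
        clH K H (B.blow ((nT (k := k) N H.1 n).res ρ hρ y).hom x) := by
      intro y
      have hc : ∀ z ∈ (up N (Es N H (s y))).1, s y * z * (s y)⁻¹ ∈ H.1 := by
        rintro z ⟨z', hz, rfl⟩
        exact hz
      rw [upPre_sym, ← cl_conj (K := K) (s y) _ H hc, B.map_map, B.map_blow]
      show clH K H _ = _
      congr 2
      apply congrArg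
      apply TB.hom_comp
      · intro a q; rfl
      · intro a q r
        rw [RingHom.comp_apply, upHom_single]
        refine (conjHom_single (s y) hc _ _).trans ?_
        congr 1
        · apply Subtype.ext
          show s y * ((s y)⁻¹ * (((n (a • q.1))⁻¹ * a * n q.1 : H.1) : G) * s y) * (s y)⁻¹ = _
          rw [← mul_assoc, ← mul_assoc, mul_inv_cancel, one_mul, mul_inv_cancel_right]
          rfl
        · show s y • ((n (a • q.1) : G) * s y)⁻¹ • r = (n (a • q.1) : G)⁻¹ • r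
          rw [smul_smul, _root_.mul_inv_rev, mul_inv_cancel_left]
    rw [map_sum, Finset.sum_congr rfl fun y _ => e1 y, ← map_sum, ← TB.blow_res _ ρ hρ B,
      blow_nT B u v h1 h2 h3, map_nsmul]
    congr 1
    exact cl_id H x
  · let σ : G ⧸ N → G := fun q => (n q : G) * s (ρ q)
    have hσ : ∀ q, (σ q : G ⧸ N) = q := by
      intro q
      show n q • (s (ρ q) : G ⧸ N) = q
      rw [hs, hn]
    let T' := secT (k := k) N H.1.subtype (fun _ _ => rfl) σ hσ
    have e1 : ∀ y, asmPre K k N (sym K (Es N H (s y)) (B.blow (T y).hom x)) =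
        B.blow (T'.res ρ hρ y).hom x := by
      intro y
      rw [asmPre_sym, B.map_blow]
      congr 1
      apply congrArg
      apply TB.hom_comp
      · intro a q; rfl
      · rintro a ⟨q, rfl⟩ r
        refine (incHom_single _ _ _).trans ?_
        congr 1
        · apply Subtype.ext
          show (s (ρ q))⁻¹ * (((n (a • q))⁻¹ * a * n q : H.1) : G) * s (ρ q) =
            ((n (a • q) : G) * s (ρ (a • q)))⁻¹ * a * ((n q : G) * s (ρ q))
          rw [hρ]
          push_cast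
          group
        · show ((n (a • q) : G) * s (ρ q))⁻¹ • r = ((n (a • q) : G) * s (ρ (a • q)))⁻¹ • r
          rw [hρ]
    rw [map_sum, Finset.sum_congr rfl fun y _ => e1 y, ← TB.blow_res _ ρ hρ B, B.blow_map]
    let T₀ := secT (k := k) N H.1.subtype (fun _ _ => rfl) s hs
    rw [(secT (k := k) N (MonoidHom.id G) (fun _ _ => rfl) s hs).comp_hom T₀ (incHom k H.1)
      H.1.subtype (fun a r => incHom_single _ _ _) (fun _ _ => rfl) (fun _ _ => rfl)
      (fun _ _ => rfl)]
    apply TB.gauge T₀ T' (fun q => (⟨(s q)⁻¹ * σ q, by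
      rw [← QuotientGroup.eq, hs, hσ]⟩ : N)) (fun _ _ => rfl)
    · intro a q
      apply Subtype.ext
      show (σ (a • q))⁻¹ * a * σ q = ((s (a • q))⁻¹ * σ (a • q))⁻¹ * ((s (a • q))⁻¹ * a * s q) *
        ((s q)⁻¹ * σ q)
      group
    · intro q r
      show (σ q)⁻¹ • r = ((s q)⁻¹ * σ q)⁻¹ • (s q)⁻¹ • r
      rw [smul_smul]
      congr 1
      group

end gen

/-- the projection to the colimit -/
def mkC (K : RFun) (k G : Type) [Field k] [Group G] [MulSemiringAction G k] :
    FreeAbelianGroup (Sym K k G) →+ Colim K k G :=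
  QuotientAddGroup.mk' (AddSubgroup.closure (Rel K k G))

theorem upC_mkC {K : RFun} (B : Blow K) {k G : Type} [Field k] [Group G] [MulSemiringAction G k]
    (N : Subgroup G) (w : FreeAbelianGroup (Sym K k N)) : upC B N (mkC K k N w) = upPre N w := rfl

/-- The part FIN, given the Galois matrix. -/
theorem fin_of (hG : S_GAL) : S_FIN := by
  classical
  intro K hB k G _ _ _ N _ _ hN hR z m hm hz
  obtain ⟨B⟩ := hB
  have : Fintype (G ⧸ N) := Fintype.ofFinite _
  obtain ⟨u, v, h1, h2, h3⟩ := hG k G N hN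
  let s : G ⧸ N → G := Quotient.out
  have hs : ∀ q, (s q : G ⧸ N) = q := fun q => QuotientGroup.out_eq' q
  have key : ∀ z : FreeAbelianGroup (Sym K k G), ∃ w : FreeAbelianGroup (Sym K k N),
      upPre N w = Fintype.card (G ⧸ N) • mkC K k G z ∧
      asmPre K k N w = B.blow (secT (k := k) N (MonoidHom.id G) (fun _ _ => rfl) s hs).hom
        (asmPre K k G z) := by
    intro z
    induction z using FreeAbelianGroup.induction_on with
    | zero =>
      refine ⟨0, ?_, ?_⟩
      · rw [map_zero, map_zero, smul_zero]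
      · rw [map_zero, map_zero, map_zero]
    | of x =>
      obtain ⟨w, e1, e2⟩ := gen B u v h1 h2 h3 s hs x.1 x.2
      refine ⟨w, e1, ?_⟩
      rw [e2, ← asmPre_sym]
      rfl
    | neg x h =>
      obtain ⟨w, e1, e2⟩ := h
      refine ⟨-w, ?_, ?_⟩
      · rw [map_neg, e1, map_neg, smul_neg]
      · rw [map_neg, e2, map_neg, map_neg]
    | add x y hx hy =>
      obtain ⟨w, e1, e2⟩ := hx
      obtain ⟨w', e3, e4⟩ := hy
      refine ⟨w + w', ?_, ?_⟩
      · rw [map_add, e1, e3, map_add, smul_add]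
      · rw [map_add, e2, e4, map_add, map_add]
  obtain ⟨w, e1, e2⟩ := key z
  obtain ⟨l, hl, e3⟩ := hR w m hm (by rw [e2, ← map_nsmul, hz, map_zero])
  refine ⟨l * Fintype.card (G ⧸ N), Nat.mul_pos hl Fintype.card_pos, ?_⟩
  have e4 : l • mkC K k N w = 0 := e3
  show (l * Fintype.card (G ⧸ N)) • mkC K k G z = 0
  rw [mul_smul, ← e1, ← upC_mkC B, ← map_nsmul, e4, map_zero]

end

end Pool.Agent.L7h59.TW
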