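import Pool.Agent.L7h59.TW.All

/-!
# The definitions used in the final statement

They are the definitions of `Pool.Agent.L7h59.TW.Def` in a shorter form.
-/

set_option autoImplicit false

open Matrix

namespace Pool.Agent.L7h59.TW

noncomputable section

section colim

variable (F : RFun) (k : Type) [Field k] {G : Type} [Group G] [MulSemiringAction G k]

/-- The group `F(k ⋊ H)`. -/
def KG (H : Subgroup G) : Type := F.F (SkewMonoidAlgebra k H)

instance instKG (H : Subgroup G) : AddCommGroup (KG F k H) := F.grp (SkewMonoidAlgebra k H)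

variable (G) in
/-- The group `F(k ⋊ G)`. -/
def KT : Type := F.F (SkewMonoidAlgebra k G)

instance instKT : AddCommGroup (KT F k G) := F.grp (SkewMonoidAlgebra k G)

/-- The homomorphism `F(c_g) : F(k ⋊ H) → F(k ⋊ L)`, where `c_g : k ⋊ H → k ⋊ L` is given by
`a h ↦ (g • a) (g h g⁻¹)`, if `g H g⁻¹ ⊆ L`. -/
def KG.conj (g : G) {H L : Subgroup G} (h : ∀ x ∈ H, g * x * g⁻¹ ∈ L) : KG F k H →+ KG F k L :=
  F.map (conjHom g h)

/-- The homomorphism `F(k ⋊ H) → F(k ⋊ G)` induced by the inclusion. -/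
def KG.incl (H : Subgroup G) : KG F k H →+ KT F k G := F.map (incHom k H)

/-- The finite subgroups of `G`. -/
def FS (G : Type) [Group G] : Type := {H : Subgroup G // Finite H}

variable (G) in
/-- The symbols `[H, x]`, `H` a finite subgroup of `G` and `x ∈ F(k ⋊ H)`. -/
def Symb : Type := Σ H : FS G, KG F k H.1

/-- The symbol `[H, x]`. -/
def symb (H : FS G) (x : KG F k H.1) : FreeAbelianGroup (Symb F k G) :=
  FreeAbelianGroup.of ⟨H, x⟩

variable (G) in
/-- The relations `[H, x + y] = [H, x] + [H, y]`. -/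
def AddRels : Set (FreeAbelianGroup (Symb F k G)) :=
  {z | ∃ (H : FS G) (x y : KG F k H.1), z = symb F k H (x + y) - (symb F k H x + symb F k H y)}

variable (G) in
/-- The relations `[L, F(c_g)(x)] = [H, x]` for `g ∈ G` and finite subgroups `H`, `L` with
`g H g⁻¹ ⊆ L`. -/
def ConjRels : Set (FreeAbelianGroup (Symb F k G)) :=
  {z | ∃ (g : G) (H L : FS G) (h : ∀ x ∈ H.1, g * x * g⁻¹ ∈ L.1) (x : KG F k H.1),
      z = symb F k L (KG.conj F k g h x) - symb F k H x}

variable (G) in
/-- The relations of the colimit. -/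
def Rels : Set (FreeAbelianGroup (Symb F k G)) := AddRels F k G ∪ ConjRels F k G

variable (G) in
/-- `colim F(k ⋊ H)` over the finite subgroups `H` of `G`. -/
def ColimF : Type := FreeAbelianGroup (Symb F k G) ⧸ AddSubgroup.closure (Rels F k G)

instance instColimF : AddCommGroup (ColimF F k G) :=
  QuotientAddGroup.Quotient.addCommGroup (AddSubgroup.closure (Rels F k G))

/-- The class of `[H, x]` in the colimit. -/
def ColimF.cl (H : FS G) (x : KG F k H.1) : ColimF F k G := QuotientAddGroup.mk (symb F k H x)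

variable (G) in
/-- `colim F(k ⋊ H) → F(k ⋊ G)`, `H` ranging over the finite subgroups of `G`, is injective up to
torsion: there is a homomorphism `A` with `A [H, x] = F(i)(x)`, `i : k ⋊ H → k ⋊ G` the inclusion,
and if `A z` has finite order then so has `z`. -/
def InjectiveUpToTorsion : Prop :=
  ∃ A : ColimF F k G →+ KT F k G, (∀ (H : FS G) (x : KG F k H.1),
      A (ColimF.cl F k H x) = KG.incl F k H.1 x) ∧
    ∀ z, (∃ n : ℕ, 0 < n ∧ n • A z = 0) → ∃ l : ℕ, 0 < l ∧ l • z = 0

theorem injectiveUpToTorsion_iff :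
    InjectiveUpToTorsion F k G ↔ RationallyInjective F k G := Iff.rfl

end colim

/-! ### Functors which are compatible with matrices -/

/-- Maps `β(θ) : F B → F C` for the ring homomorphisms `θ : B → M_X(C)`, `X` a finite set. -/
def MatrixMaps (F : RFun) : Type 1 :=
  ∀ (B C X : Type) [Ring B] [Ring C] [Fintype X] [DecidableEq X],
    (B →+* Matrix X X C) → F.F B →+ F.F C

section axs

variable (F : RFun) (β : MatrixMaps F)

/-- `F(g) F(f) = F(g f)`. -/
def Functorial : Prop :=
  ∀ (B C D : Type) [Ring B] [Ring C] [Ring D] (f : B →+* C) (g : C →+* D) (x : F.F B),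
    F.map g (F.map f x) = F.map (g.comp f) x

/-- `β(θ) F(f) = β(θ f)`. -/
def NaturalRight : Prop :=
  ∀ (A B C X : Type) [Ring A] [Ring B] [Ring C] [Fintype X] [DecidableEq X]
    (f : A →+* B) (θ : B →+* Matrix X X C) (x : F.F A),
    β B C X θ (F.map f x) = β A C X (θ.comp f) x

/-- `F(g) β(θ) = β(M_X(g) θ)`. -/
def NaturalLeft : Prop :=
  ∀ (B C D X : Type) [Ring B] [Ring C] [Ring D] [Fintype X] [DecidableEq X]
    (θ : B →+* Matrix X X C) (g : C →+* D) (x : F.F B),
    F.map g (β B C X θ x) = β B D X (g.mapMatrix.comp θ) x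

/-- `β(u θ u⁻¹) = β(θ)` for invertible matrices `u`. -/
def ConjInvariant : Prop :=
  ∀ (B C X : Type) [Ring B] [Ring C] [Fintype X] [DecidableEq X]
    (θ θ' : B →+* Matrix X X C) (u v : Matrix X X C), u * v = 1 → v * u = 1 →
    (∀ b, θ' b = u * θ b * v) → ∀ x : F.F B, β B C X θ' x = β B C X θ x

/-- `β(θ)` is the sum of the `β(θ_y)` if `θ` is the block sum of the `θ_y`. -/
def BlockAdditive : Prop :=
  ∀ (B C X Y : Type) [Ring B] [Ring C] [Fintype X] [DecidableEq X] [Fintype Y]
    [DecidableEq Y] (θ : B →+* Matrix X X C) (ρ : X → Y)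
    (θs : ∀ y, B →+* Matrix {x // ρ x = y} {x // ρ x = y} C),
    (∀ b x x', ρ x ≠ ρ x' → θ b x x' = 0) →
    (∀ b y (x x' : {x // ρ x = y}), θs y b x x' = θ b x x') →
    ∀ x : F.F B, β B C X θ x = ∑ y, β B C {x // ρ x = y} (θs y) x

/-- `β(θ) = F(θ)` if `X` has one element. -/
def OneByOne : Prop :=
  ∀ (B C X : Type) [Ring B] [Ring C] [Fintype X] [DecidableEq X] [Unique X]
    (θ : B →+* Matrix X X C) (f : B →+* C), (∀ b x y, θ b x y = f b) →
    ∀ x : F.F B, β B C X θ x = F.map f x

end axs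

/-- `F` is a functor with maps `β(θ)` with these properties. -/
def IsMatrixFunctor (F : RFun) : Prop :=
  Functorial F ∧ ∃ β : MatrixMaps F, NaturalRight F β ∧ NaturalLeft F β ∧ ConjInvariant F β ∧
    BlockAdditive F β ∧ OneByOne F β

theorem IsMatrixFunctor.blow {F : RFun} (h : IsMatrixFunctor F) : Nonempty (Blow F) := by
  obtain ⟨h1, β, h2, h3, h4, h5, h6⟩ := h
  exact ⟨{ blow := fun {B C X} _ _ _ _ θ => β B C X θ
           map_map := fun f g x => h1 _ _ _ f g x
           blow_map := fun f θ x => h2 _ _ _ _ f θ x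
           map_blow := fun θ g x => h3 _ _ _ _ θ g x
           blow_conj := fun θ θ' u v a b c x => h4 _ _ _ θ θ' u v a b c x
           blow_sum := fun θ ρ θs a b x => h5 _ _ _ _ θ ρ θs a b x
           blow_unique := fun θ f a x => h6 _ _ _ θ f a x }⟩

end

end Pool.Agent.L7h59.TW
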